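import Mathlib

/-!
# Tempered fundamental groups and special varieties: data and known facts
-/

namespace Pool.Agent.N522.TF

/-- Smooth projective varieties over `K`. -/
structure Theory where
  /-- smooth projective varieties over `K` -/
  Var : Type
  /-- the analytification is `K`-analytically special -/
  Special : Var → Prop
  /-- the tempered fundamental group of the analytification is virtually abelian -/
  VA : Var → Prop
  /-- there is a surjective morphism `Y → X` -/
  Dom : Var → Var → Prop
  /-- there is a connected finite étale cover `Y → X` -/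
  Et : Var → Var → Prop
  /-- products -/
  prod : Var → Var → Var
  /-- `P` is a projective bundle `ℙ(V)` over `X` -/
  PBun : Var → Var → Prop
  /-- the Albanese morphism is surjective -/
  AlbSurj : Var → Prop
  /-- dimension at most two and negative Kodaira dimension -/
  Ruled : Var → Prop
  /-- isomorphic to a closed subvariety of an abelian variety -/
  SubAb : Var → Prop

variable {T : Theory}

/-- Q1 for `X` -/
def Q1 (X : T.Var) : Prop := T.Special X → T.VA X

/-- Known facts. -/
structure Facts (T : Theory) : Prop where
  /-- images of special varieties are special -/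
  special_dom : ∀ Y X : T.Var, T.Dom Y X → T.Special Y → T.Special X
  /-- finite étale covers of special varieties are special: finite étale covers of `U` extend to `G`
  by purity and are algebraic groups -/
  special_et : ∀ Y X : T.Var, T.Et Y X → T.Special X → T.Special Y
  /-- finite étale covers are surjective -/
  et_dom : ∀ Y X : T.Var, T.Et Y X → T.Dom Y X
  /-- the tempered fundamental group of a finite étale cover is a subgroup of finite index -/
  va_et : ∀ Y X : T.Var, T.Et Y X → (T.VA Y ↔ T.VA X)
  /-- projections -/
  prod_dom : ∀ X Y : T.Var, T.Dom (T.prod X Y) X ∧ T.Dom (T.prod X Y) Y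
  /-- the tempered fundamental group of a product is the product -/
  va_prod : ∀ X Y : T.Var, T.VA X → T.VA Y → T.VA (T.prod X Y)
  /-- projective bundles: homotopy invariance -/
  va_pbun : ∀ P X : T.Var, T.PBun P X → T.VA X → T.VA P
  /-- projective bundles -/
  pbun_dom : ∀ P X : T.Var, T.PBun P X → T.Dom P X
  /-- Albanese morphisms of special varieties are surjective: the image is a special subvariety of an
  abelian variety, hence a translate of an abelian subvariety, and it generates -/
  alb : ∀ X : T.Var, T.Special X → T.AlbSurj X
  /-- surfaces of negative Kodaira dimension (page), projective line, point -/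
  ruled : ∀ X : T.Var, T.Ruled X → Q1 X
  /-- a special subvariety of an abelian variety is a translate of an abelian subvariety (page), and
  tempered fundamental groups of abelian varieties are virtually abelian -/
  subAb : ∀ X : T.Var, T.SubAb X → Q1 X

/-- The varieties obtained from `Ruled` and `SubAb` ones and from those with an étale cover whose
Albanese morphism is not surjective by products, projective bundles, and finite étale covers and
quotients. -/
inductive Gen (T : Theory) : T.Var → Prop
  | ruled (X : T.Var) : T.Ruled X → Gen T X
  | subAb (X : T.Var) : T.SubAb X → Gen T X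
  | alb (Y X : T.Var) : T.Et Y X → ¬ T.AlbSurj Y → Gen T X
  | prod (X Y : T.Var) : Gen T X → Gen T Y → Gen T (T.prod X Y)
  | pbun (P X : T.Var) : T.PBun P X → Gen T X → Gen T P
  | cover (Y X : T.Var) : T.Et Y X → Gen T X → Gen T Y
  | quot (Y X : T.Var) : T.Et Y X → Gen T Y → Gen T X

theorem q1_et (F : Facts T) (Y X : T.Var) (h : T.Et Y X) : Q1 Y ↔ Q1 X :=
  ⟨fun hY hX => (F.va_et Y X h).mp (hY (F.special_et Y X h hX)),
    fun hX hY => (F.va_et Y X h).mpr (hX (F.special_dom Y X (F.et_dom Y X h) hY))⟩

theorem q1_prod (F : Facts T) (X Y : T.Var) (hX : Q1 X) (hY : Q1 Y) : Q1 (T.prod X Y) :=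
  fun h => F.va_prod X Y (hX (F.special_dom _ _ (F.prod_dom X Y).1 h))
    (hY (F.special_dom _ _ (F.prod_dom X Y).2 h))

theorem q1_pbun (F : Facts T) (P X : T.Var) (h : T.PBun P X) (hX : Q1 X) : Q1 P :=
  fun hP => F.va_pbun P X h (hX (F.special_dom P X (F.pbun_dom P X h) hP))

theorem q1_alb (F : Facts T) (Y X : T.Var) (h : T.Et Y X) (hY : ¬ T.AlbSurj Y) :
    ¬ T.Special X ∧ Q1 X :=
  have h1 : ¬ T.Special X := fun hX => hY (F.alb Y (F.special_et Y X h hX))
  ⟨h1, fun hX => absurd hX h1⟩

theorem q1_gen (F : Facts T) (X : T.Var) (h : Gen T X) : Q1 X := by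
  induction h with
  | ruled X h => exact F.ruled X h
  | subAb X h => exact F.subAb X h
  | alb Y X h hY => exact (q1_alb F Y X h hY).2
  | prod X Y _ _ ih1 ih2 => exact q1_prod F X Y ih1 ih2
  | pbun P X h _ ih => exact q1_pbun F P X h ih
  | cover Y X h _ ih => exact (q1_et F Y X h).mpr ih
  | quot Y X h _ ih => exact (q1_et F Y X h).mp ih

end Pool.Agent.N522.TF
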